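import Mathlib

set_option autoImplicit false
set_option linter.unusedSectionVars false

namespace Pool.Agent.H152Z.Shun

/-- The permutational wreath product of `D` with a group `Γ` acting on `Ω`. -/
@[ext] structure PW (D Ω Γ : Type) where
  left : Ω → D
  right : Γ

/-- No non-trivial element has order a power of `q`. -/
def NoTors (q : ℕ) (G : Type) [Group G] : Prop := ∀ (g : G) (a : ℕ), g ^ q ^ a = 1 → g = 1

/-- Any `R` elements generate a finite subgroup. -/
def KFin (R : ℕ) (G : Type) [Group G] : Prop :=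
  ∀ S : Finset G, S.card ≤ R → (Subgroup.closure (S : Set G) : Set G).Finite

namespace PW

variable {D E Ω Γ : Type} [Group D] [Group E] [Group Γ] [MulAction Γ Ω]

instance : Mul (PW D Ω Γ) :=
  ⟨fun a b => ⟨fun x => a.left (b.right • x) * b.left x, a.right * b.right⟩⟩
instance : One (PW D Ω Γ) := ⟨⟨fun _ => 1, 1⟩⟩
instance : Inv (PW D Ω Γ) := ⟨fun a => ⟨fun x => (a.left (a.right⁻¹ • x))⁻¹, a.right⁻¹⟩⟩

@[simp] lemma mul_left (a b : PW D Ω Γ) (x : Ω) :
    (a * b).left x = a.left (b.right • x) * b.left x := rfl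
@[simp] lemma mul_right (a b : PW D Ω Γ) : (a * b).right = a.right * b.right := rfl
@[simp] lemma one_left (x : Ω) : (1 : PW D Ω Γ).left x = 1 := rfl
@[simp] lemma one_right : (1 : PW D Ω Γ).right = 1 := rfl
@[simp] lemma inv_left (a : PW D Ω Γ) (x : Ω) :
    a⁻¹.left x = (a.left (a.right⁻¹ • x))⁻¹ := rfl
@[simp] lemma inv_right (a : PW D Ω Γ) : a⁻¹.right = a.right⁻¹ := rfl

instance : Group (PW D Ω Γ) where
  mul_assoc a b c := by
    ext x
    · simp [mul_assoc, mul_smul]
    · simp [mul_assoc]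
  one_mul a := by ext x <;> simp
  mul_one a := by ext x <;> simp
  inv_mul_cancel a := by ext x <;> simp

instance [Countable D] [Finite Ω] [Countable Γ] : Countable (PW D Ω Γ) :=
  Function.Injective.countable (f := fun a : PW D Ω Γ => (a.left, a.right))
    (fun _ _ h => PW.ext (congrArg Prod.fst h) (congrArg Prod.snd h))

/-- The projection to the top group. -/
def top : PW D Ω Γ →* Γ where
  toFun a := a.right
  map_one' := rfl
  map_mul' _ _ := rfl

@[simp] lemma top_apply (a : PW D Ω Γ) : top a = a.right := rfl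

/-- The embedding of the top group. -/
def inr : Γ →* PW D Ω Γ where
  toFun g := ⟨fun _ => 1, g⟩
  map_one' := rfl
  map_mul' _ _ := by ext x <;> simp

@[simp] lemma inr_left (g : Γ) (x : Ω) : (inr g : PW D Ω Γ).left x = 1 := rfl
@[simp] lemma inr_right (g : Γ) : (inr g : PW D Ω Γ).right = g := rfl

lemma inr_inj : Function.Injective (inr : Γ →* PW D Ω Γ) :=
  fun _ _ h => congrArg PW.right h

/-- The embedding of the base group. -/
def inl : (Ω → D) →* PW D Ω Γ where
  toFun f := ⟨f, 1⟩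
  map_one' := rfl
  map_mul' _ _ := by ext x <;> simp

@[simp] lemma inl_left (f : Ω → D) (x : Ω) : (inl f : PW D Ω Γ).left x = f x := rfl
@[simp] lemma inl_right (f : Ω → D) : (inl f : PW D Ω Γ).right = 1 := rfl

lemma pow_right (a : PW D Ω Γ) (k : ℕ) : (a ^ k).right = a.right ^ k := map_pow top a k

lemma pow_left (a : PW D Ω Γ) (x : Ω) (h : a.right • x = x) (k : ℕ) :
    (a ^ k).left x = a.left x ^ k := by
  induction k with
  | zero => simp
  | succ k ih => rw [pow_succ, mul_left, h, ih, pow_succ]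

lemma noTors {q : ℕ} (hD : NoTors q D) (hΓ : NoTors q Γ) : NoTors q (PW D Ω Γ) := by
  intro g a hg
  have h1 : g.right = 1 := hΓ _ a (by rw [← pow_right, hg]; rfl)
  ext x
  · refine hD _ a ?_
    rw [← pow_left g x (by rw [h1, one_smul]), hg]; rfl
  · exact h1

lemma isTorsion [Finite Ω] (hD : IsMulTorsion D) (hΓ : IsMulTorsion Γ) :
    IsMulTorsion (PW D Ω Γ) := by
  intro g
  obtain ⟨n, hn, h1⟩ := isOfFinOrder_iff_pow_eq_one.1 (hΓ g.right)
  have h2 : g ^ n = inl (g ^ n).left := by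
    ext x
    · rfl
    · rw [pow_right, h1]; rfl
  have h3 : IsOfFinOrder (g ^ n).left := by
    exact IsOfFinOrder.pi fun x => hD _
  have h4 : IsOfFinOrder (g ^ n) := h2 ▸ (inl : (Ω → D) →* PW D Ω Γ).isOfFinOrder h3
  exact (isOfFinOrder_pow.1 h4).resolve_right hn.ne'

lemma residuallyFinite [Finite Ω] [Group.ResiduallyFinite D] [Group.ResiduallyFinite Γ] :
    Group.ResiduallyFinite (PW D Ω Γ) := by
  refine Group.residuallyFinite_of_forall_exists_finite_monoidHom.{0} fun g hg => ?_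
  by_cases h : g.right = 1
  · obtain ⟨x, hx⟩ : ∃ x, g.left x ≠ 1 := by
      by_contra hcon
      push Not at hcon
      exact hg (PW.ext (funext hcon) h)
    obtain ⟨H, hH⟩ := Group.exists_finiteIndexNormalSubgroup_notMem _ hx
    let f : PW D Ω Γ →* PW (D ⧸ H.toSubgroup) Ω (Equiv.Perm Ω) :=
      { toFun := fun a => ⟨fun y => QuotientGroup.mk (a.left y), MulAction.toPermHom Γ Ω a.right⟩
        map_one' := by ext y <;> simp
        map_mul' := fun a b => by ext y <;> simp [mul_smul] }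
    have : Finite (PW (D ⧸ H.toSubgroup) Ω (Equiv.Perm Ω)) :=
      Finite.of_injective (fun a => (a.left, a.right))
        (fun _ _ h => PW.ext (congrArg Prod.fst h) (congrArg Prod.snd h))
    refine ⟨_, inferInstance, this, f, fun h1 => hH ?_⟩
    exact (QuotientGroup.eq_one_iff _).1 (congrFun (congrArg PW.left h1) x)
  · obtain ⟨H, hH⟩ := Group.exists_finiteIndexNormalSubgroup_notMem _ h
    exact ⟨Γ ⧸ H.toSubgroup, inferInstance, inferInstance,
      (QuotientGroup.mk' H.toSubgroup).comp top,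
      fun h1 => hH ((QuotientGroup.eq_one_iff _).1 h1)⟩

lemma finite_of_sections [Finite Ω] (S : Set (PW D Ω Γ))
    (h1 : (Subgroup.closure (PW.right '' S) : Set Γ).Finite) (T : Ω → Subgroup D)
    (h2 : ∀ x, (T x : Set D).Finite)
    (h3 : ∀ s ∈ S, ∀ x, T (s.right • x) = T x ∧ s.left x ∈ T x) :
    (Subgroup.closure S : Set (PW D Ω Γ)).Finite := by
  have key : ∀ g ∈ Subgroup.closure S, g.right ∈ Subgroup.closure (PW.right '' S) ∧
      ∀ x, T (g.right • x) = T x ∧ g.left x ∈ T x := by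
    intro g hg
    induction hg using Subgroup.closure_induction with
    | mem g hg => exact ⟨Subgroup.subset_closure ⟨g, hg, rfl⟩, h3 g hg⟩
    | one => exact ⟨Subgroup.one_mem _, fun x => ⟨by simp, by simp⟩⟩
    | mul a b _ _ ha hb =>
      refine ⟨Subgroup.mul_mem _ ha.1 hb.1, fun x => ⟨?_, ?_⟩⟩
      · rw [mul_right, mul_smul, (ha.2 _).1, (hb.2 _).1]
      · exact (T x).mul_mem ((hb.2 x).1 ▸ (ha.2 _).2) (hb.2 x).2
    | inv a _ ha =>
      refine ⟨Subgroup.inv_mem _ ha.1, fun x => ?_⟩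
      have h := ha.2 (a.right⁻¹ • x)
      rw [smul_inv_smul] at h
      exact ⟨h.1.symm, (T x).inv_mem (h.1 ▸ h.2)⟩
  refine (((Set.Finite.pi' h2).prod h1).image
    (fun z => (⟨z.1, z.2⟩ : PW D Ω Γ))).subset fun g hg => ?_
  exact ⟨(g.left, g.right), ⟨fun x => ((key g hg).2 x).2, (key g hg).1⟩, rfl⟩

/-- The point `x` is reached from `x₀` by an element of `L` with trivial section. -/
def Triv (L : Subgroup (PW D Ω Γ)) (x₀ x : Ω) : Prop :=
  ∃ k ∈ L, k.right • x₀ = x ∧ k.left x₀ = 1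

lemma Triv.refl (L : Subgroup (PW D Ω Γ)) (x₀ : Ω) : Triv L x₀ x₀ :=
  ⟨1, L.one_mem, by simp, rfl⟩

lemma Triv.step {L : Subgroup (PW D Ω Γ)} {x₀ x : Ω} (h : Triv L x₀ x) {g : PW D Ω Γ}
    (hg : g ∈ L) (h1 : g.left x = 1) : Triv L x₀ (g.right • x) := by
  obtain ⟨k, hk, rfl, h2⟩ := h
  exact ⟨g * k, L.mul_mem hg hk, by simp [mul_smul], by simp [h1, h2]⟩

lemma infinite_of_triv [Infinite D] (L : Subgroup (PW D Ω Γ)) (x₀ : Ω) (h : ∀ x, Triv L x₀ x)
    (h2 : ∀ H : Subgroup D, (∀ g ∈ L, ∀ x, g.left x ∈ H) → H = ⊤) :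
    (L : Set (PW D Ω Γ)).Infinite := by
  let H : Subgroup D :=
    { carrier := {d | ∃ k ∈ L, k.right • x₀ = x₀ ∧ k.left x₀ = d}
      one_mem' := ⟨1, L.one_mem, by simp, rfl⟩
      mul_mem' := by
        rintro _ _ ⟨a, ha, ha', rfl⟩ ⟨b, hb, hb', rfl⟩
        exact ⟨a * b, L.mul_mem ha hb, by simp [mul_smul, ha', hb'], by simp [hb']⟩
      inv_mem' := by
        rintro _ ⟨a, ha, ha', rfl⟩
        have : a.right⁻¹ • x₀ = x₀ := by rw [inv_smul_eq_iff, ha']
        exact ⟨a⁻¹, L.inv_mem ha, this, by simp [this]⟩ }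
  have hH : H = ⊤ := by
    refine h2 H fun g hg x => ?_
    obtain ⟨k, hk, hk1, hk2⟩ := h x
    obtain ⟨l, hl, hl1, hl2⟩ := h (g.right • x)
    refine ⟨l⁻¹ * g * k, L.mul_mem (L.mul_mem (L.inv_mem hl) hg) hk, ?_, ?_⟩
    · simp [mul_smul, hk1, ← hl1]
    · simp [hk1, hk2, ← hl1, hl2]
  intro hfin
  refine Set.infinite_univ (α := D) ((hfin.image fun k => k.left x₀).subset fun d _ => ?_)
  have : d ∈ H := hH ▸ Subgroup.mem_top d
  obtain ⟨k, hk, -, hk'⟩ := this
  exact ⟨k, hk, hk'⟩

open Classical in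
/-- An element of `q`-power order is conjugate to its top part, by a base element which is trivial
at one point of each cycle. -/
lemma gauge [Fintype Ω] {q : ℕ} (hD : NoTors q D) (b : PW D Ω Γ) (a : ℕ) (hb : b ^ q ^ a = 1)
    (o : ℕ) (ho : 0 < o) (h : ∀ x : Ω, b.right ^ o • x = x) :
    ∃ g : Ω → D, (∀ x, b.left x = g (b.right • x) * (g x)⁻¹) ∧
      Fintype.card Ω ≤ o * (Finset.univ.filter fun x => g x = 1).card := by
  have k1 : ∀ (j : ℕ) (x : Ω), b.right ^ j • x = x → (b ^ j).left x = 1 := by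
    intro j x hx
    refine hD _ a ?_
    rw [← pow_left (b ^ j) x (by rw [pow_right, hx]), ← pow_mul, mul_comm, pow_mul, hb, one_pow]
    rfl
  have k2 : ∀ (i j : ℕ) (x : Ω), b.right ^ i • x = b.right ^ j • x →
      (b ^ i).left x = (b ^ j).left x := by
    intro i j x hx
    wlog hij : i ≤ j generalizing i j
    · exact (this j i hx.symm (by omega)).symm
    obtain ⟨d, rfl⟩ := Nat.exists_eq_add_of_le hij
    rw [add_comm, pow_add, mul_left, pow_right, k1 d, one_mul]
    rw [← mul_smul, ← pow_add, add_comm, ← hx]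
  have hper : ∀ (i : ℕ) (x : Ω), b.right ^ (i % o) • x = b.right ^ i • x := by
    intro i x
    have : ∀ k : ℕ, (b.right ^ o) ^ k • x = x := by
      intro k
      induction k with
      | zero => simp
      | succ k ih => rw [pow_succ, mul_smul, h, ih]
    conv_rhs => rw [← Nat.mod_add_div i o, pow_add, mul_smul, pow_mul, this]
  let s : Setoid Ω :=
    { r := fun x y => ∃ i : ℕ, b.right ^ i • x = y
      iseqv := ⟨fun x => ⟨0, by simp⟩, by
        rintro x y ⟨i, rfl⟩
        refine ⟨i * (o - 1), ?_⟩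
        rw [← mul_smul, ← pow_add, ← hper]
        have : (i * (o - 1) + i) % o = 0 := by
          have : i * (o - 1) + i = i * o := by
            obtain ⟨o', rfl⟩ := Nat.exists_eq_succ_of_ne_zero ho.ne'
            simp [Nat.mul_succ]
          rw [this, Nat.mul_mod_left]
        rw [this]; simp, by
        rintro x y z ⟨i, rfl⟩ ⟨j, rfl⟩
        exact ⟨j + i, by rw [pow_add, mul_smul]⟩⟩ }
  let ρ : Ω → Ω := fun x => (Quotient.mk s x).out
  have hρ : ∀ x, ∃ i : ℕ, b.right ^ i • ρ x = x := fun x => Quotient.mk_out (s := s) x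
  choose i hi using hρ
  have hρ1 : ∀ x, ρ (b.right • x) = ρ x := by
    intro x
    have : Quotient.mk s x = Quotient.mk s (b.right • x) := Quotient.sound ⟨1, by simp⟩
    simp only [ρ, this]
  have hρ2 : ∀ x, ρ (ρ x) = ρ x := by intro x; simp [ρ]
  refine ⟨fun x => (b ^ i x).left (ρ x), fun x => ?_, ?_⟩
  · beta_reduce
    rw [eq_mul_inv_iff_mul_eq, hρ1]
    have e1 : (b ^ (i x + 1)).left (ρ x) = b.left x * (b ^ i x).left (ρ x) := by
      rw [pow_succ', mul_left, pow_right, hi]
    rw [← e1]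
    refine k2 _ _ _ ?_
    rw [pow_succ', mul_smul, hi, ← hρ1, hi]
  · rw [← Finset.card_univ, ← Finset.card_range o, ← Finset.card_product]
    refine Finset.card_le_card_of_surjOn (fun z => b.right ^ z.1 • z.2) fun x _ => ?_
    refine ⟨(i x % o, ρ x), ?_, ?_⟩
    · simp only [Finset.coe_product, Set.mem_prod, Finset.coe_range, Set.mem_Iio,
        Finset.coe_filter, Finset.mem_univ, true_and, Set.mem_ofPred_eq]
      refine ⟨Nat.mod_lt _ ho, ?_⟩
      rw [hρ2]
      refine k1 _ _ ?_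
      have := hi (ρ x)
      rwa [hρ2] at this
    · simp only [hper, hi]

end PW

end Pool.Agent.H152Z.Shun
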