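import Mathlib
import Pool.Agent.H152Z.Shun.PW

set_option autoImplicit false
set_option linter.unusedSectionVars false

namespace Pool.Agent.H152Z.Shun

lemma absorb {G : Type} [Group G] {S : Subgroup G} (hS : S.IsSubnormal) {y z : G} (hy : y ∈ S)
    {o m : ℕ} (hz : z ^ o = 1) (hm : (z * y⁻¹) ^ m = 1) (hc : o.Coprime m) : z * y⁻¹ ∈ S := by
  suffices h : z ∈ S from S.mul_mem h (S.inv_mem hy)
  induction hS with
  | top => trivial
  | step H K hle _ hN ih =>
    have hyK := hle hy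
    have hzK := ih hyK
    have h1 : (QuotientGroup.mk' (H.subgroupOf K)) ⟨y, hyK⟩ = 1 :=
      (QuotientGroup.eq_one_iff _).2 hy
    have h2 : (QuotientGroup.mk' (H.subgroupOf K)) ⟨z, hzK⟩ ^ o = 1 := by
      rw [← map_pow, show (⟨z, hzK⟩ : K) ^ o = 1 from Subtype.ext hz, map_one]
    have h3 : (QuotientGroup.mk' (H.subgroupOf K)) ⟨z, hzK⟩ ^ m = 1 := by
      have : ((⟨z, hzK⟩ : K) * (⟨y, hyK⟩ : K)⁻¹) ^ m = 1 := Subtype.ext hm
      have h4 := congrArg (QuotientGroup.mk' (H.subgroupOf K)) this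
      rwa [map_pow, map_mul, map_inv, h1, inv_one, mul_one, map_one] at h4
    have h5 := orderOf_eq_one_iff.1 (Nat.eq_one_of_dvd_coprimes hc (orderOf_dvd_of_pow_eq_one h2)
      (orderOf_dvd_of_pow_eq_one h3))
    exact (QuotientGroup.eq_one_iff (⟨z, hzK⟩ : K)).1 h5

lemma eq_one_of_coprime {G : Type} [Monoid G] {g : G} {a b : ℕ} (h1 : g ^ a = 1) (h2 : g ^ b = 1)
    (hc : a.Coprime b) : g = 1 :=
  orderOf_eq_one_iff.1 (Nat.eq_one_of_dvd_coprimes hc (orderOf_dvd_of_pow_eq_one h1)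
    (orderOf_dvd_of_pow_eq_one h2))

lemma back_closed {Ω : Type} [Finite Ω] {τ : Ω → Ω} (hτ : Function.Injective τ) {C : Set Ω}
    (hC : ∀ x ∈ C, τ x ∈ C) {x : Ω} (hx : x ∈ C) : ∃ y ∈ C, τ y = x :=
  ((Set.Finite.injOn_iff_bijOn_of_mapsTo (Set.toFinite C) hC).1 hτ.injOn).surjOn hx

lemma connect {Ω : Type} [Fintype Ω] (σ τ : Ω → Ω) (hτ : Function.Injective τ) (r : ℕ)
    (hr : 0 < r) (h1 : ∀ x, ∀ i < r, ∀ j < r, τ^[i] x = τ^[j] x → i = j) (x₀ : Ω)
    (h2 : ∀ C : Set Ω, x₀ ∈ C → (∀ x ∈ C, σ x ∈ C) → (∀ x ∈ C, τ x ∈ C) → ∀ x, x ∈ C) :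
    ∃ T : Finset Ω, r * (T.card + 1) ≤ Fintype.card Ω ∧
      ∀ C : Set Ω, x₀ ∈ C → (∀ x ∈ T, x ∈ C → σ x ∈ C) → (∀ x ∈ C, τ x ∈ C) → ∀ x, x ∈ C := by
  classical
  let Cl : Finset Ω → Finset Ω := fun T => Finset.univ.filter fun y =>
    ∀ C : Set Ω, x₀ ∈ C → (∀ x ∈ T, x ∈ C → σ x ∈ C) → (∀ x ∈ C, τ x ∈ C) → y ∈ C
  have hmem : ∀ T y, y ∈ Cl T ↔ ∀ C : Set Ω, x₀ ∈ C → (∀ x ∈ T, x ∈ C → σ x ∈ C) →
      (∀ x ∈ C, τ x ∈ C) → y ∈ C := by intro T y; simp only [Cl, Finset.mem_filter]; simp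
  have c0 : ∀ T, x₀ ∈ Cl T := fun T => (hmem _ _).2 fun C h _ _ => h
  have c1 : ∀ T, ∀ x ∈ T, x ∈ Cl T → σ x ∈ Cl T := fun T x hx h =>
    (hmem _ _).2 fun C a b c => b x hx ((hmem _ _).1 h C a b c)
  have c2 : ∀ T, ∀ x ∈ Cl T, τ x ∈ Cl T := fun T x h =>
    (hmem _ _).2 fun C a b c => c x ((hmem _ _).1 h C a b c)
  have c3 : ∀ T, ∀ x ∈ Cl T, ∀ i, τ^[i] x ∈ Cl T := by
    intro T x hx i
    induction i with
    | zero => exact hx
    | succ i ih => rw [Function.iterate_succ_apply']; exact c2 _ _ ih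
  have c4 : ∀ T x i, τ^[i] x ∈ Cl T → x ∈ Cl T := by
    intro T x i
    induction i with
    | zero => exact id
    | succ i ih =>
      rw [Function.iterate_succ_apply']
      intro h
      obtain ⟨y, hy, hy'⟩ := back_closed hτ (C := (Cl T : Set Ω)) (c2 T) h
      exact ih (hτ hy' ▸ hy)
  have c5 : ∀ x, ((Finset.range r).image fun i => τ^[i] x).card = r := by
    intro x
    rw [Finset.card_image_of_injOn, Finset.card_range]
    intro i hi j hj h
    exact h1 x i (by simpa using hi) j (by simpa using hj) h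
  have key : ∀ k : ℕ, ∃ T : Finset Ω, r * (T.card + 1) ≤ (Cl T).card ∧
      ((∀ x, x ∈ Cl T) ∨ T.card = k) := by
    intro k
    induction k with
    | zero =>
      refine ⟨∅, ?_, Or.inr rfl⟩
      rw [Finset.card_empty, zero_add, mul_one, ← c5 x₀]
      refine Finset.card_le_card fun y hy => ?_
      obtain ⟨i, -, rfl⟩ := Finset.mem_image.1 hy
      exact c3 _ _ (c0 _) i
    | succ k ih =>
      obtain ⟨T, hT, h | h⟩ := ih
      · exact ⟨T, hT, Or.inl h⟩
      by_cases hall : ∀ x, x ∈ Cl T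
      · exact ⟨T, hT, Or.inl hall⟩
      obtain ⟨x, hx, hx'⟩ : ∃ x ∈ Cl T, σ x ∉ Cl T := by
        by_contra hcon
        push Not at hcon
        exact hall (h2 (Cl T : Set Ω) (c0 T) hcon (c2 T))
      have hxT : x ∉ T := fun h => hx' (c1 T x h hx)
      have hsub : Cl T ⊆ Cl (insert x T) := fun y hy => (hmem _ _).2 fun C a b c =>
        (hmem _ _).1 hy C a (fun z hz => b z (Finset.mem_insert_of_mem hz)) c
      refine ⟨insert x T, ?_, Or.inr (by rw [Finset.card_insert_of_notMem hxT, h])⟩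
      have hdis : Disjoint (Cl T) ((Finset.range r).image fun i => τ^[i] (σ x)) := by
        rw [Finset.disjoint_right]
        intro y hy hy'
        obtain ⟨i, -, rfl⟩ := Finset.mem_image.1 hy
        exact hx' (c4 _ _ _ hy')
      have hle : (Cl T ∪ (Finset.range r).image fun i => τ^[i] (σ x)).card ≤
          (Cl (insert x T)).card := by
        refine Finset.card_le_card (Finset.union_subset hsub fun y hy => ?_)
        obtain ⟨i, -, rfl⟩ := Finset.mem_image.1 hy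
        exact c3 _ _ (c1 _ x (Finset.mem_insert_self _ _) (hsub hx)) i
      rw [Finset.card_union_of_disjoint hdis, c5] at hle
      rw [Finset.card_insert_of_notMem hxT]
      nlinarith
  obtain ⟨T, hT, h⟩ := key (Fintype.card Ω)
  have hT' := hT.trans (Finset.card_le_univ _)
  rcases h with h | h
  · exact ⟨T, hT', fun C a b c x => (hmem _ _).1 (h x) C a b c⟩
  · rw [h] at hT'; nlinarith

lemma vandermonde {Z : Type} [Fintype Z] {r : ℕ} [Fact r.Prime] (c : Z → ZMod r)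
    (hc : Function.Injective c) (h0 : ∀ z, c z ≠ 0) (C : Set (Z → ZMod r)) (h1 : 0 ∈ C)
    (h2 : ∀ x ∈ C, c * x ∈ C) (h3 : ∀ x ∈ C, x + 1 ∈ C) (x : Z → ZMod r) : x ∈ C := by
  classical
  let U : AddSubmonoid (Z → ZMod r) :=
    { carrier := {n | ∀ w ∈ C, w + n ∈ C}
      zero_mem' := fun w hw => by simpa using hw
      add_mem' := fun {a b} ha hb w hw => by rw [← add_assoc]; exact hb _ (ha _ hw) }
  have hinj : Function.Injective fun x : Z → ZMod r => c * x := fun a b h =>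
    funext fun z => mul_left_cancel₀ (h0 z) (congrFun h z)
  have h4 : ∀ i : ℕ, c ^ i ∈ U := by
    intro i
    induction i with
    | zero => rw [pow_zero]; exact h3
    | succ i ih =>
      intro w hw
      obtain ⟨y, hy, rfl⟩ := back_closed hinj h2 hw
      rw [pow_succ', ← mul_add]
      exact h2 _ (ih y hy)
  have h5 : x ∈ U := by
    obtain ⟨f, hf⟩ : ∃ f : Polynomial (ZMod r), ∀ z, f.eval (c z) = x z :=
      ⟨_, fun z => Lagrange.eval_interpolate_at_node x hc.injOn (Finset.mem_univ z)⟩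
    have : x = ∑ i ∈ Finset.range (f.natDegree + 1), (f.coeff i).val • c ^ i := by
      funext z
      rw [← hf, Polynomial.eval_eq_sum_range, Finset.sum_apply]
      refine Finset.sum_congr rfl fun i _ => ?_
      rw [Pi.smul_apply, nsmul_eq_mul, ZMod.natCast_zmod_val, Pi.pow_apply]
    rw [this]
    exact U.sum_mem fun i _ => U.nsmul_mem (h4 i) _
  simpa using h5 0 h1

lemma two_pow_sub {i j k l : ℕ} (h1 : i ≠ j) (h2 : k ≠ l)
    (h : (2 : ℤ) ^ i - 2 ^ j = 2 ^ k - 2 ^ l) : i = k := by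
  have aux : ∀ i j k l : ℕ, j < i → (2 : ℤ) ^ i - 2 ^ j = 2 ^ k - 2 ^ l → ¬ k < i := by
    intro i j k l hj h hk
    obtain ⟨i, rfl⟩ : ∃ i', i = i' + 1 := ⟨i - 1, by omega⟩
    have a1 : (2 : ℤ) ^ j ≤ 2 ^ i := pow_le_pow_right₀ (by norm_num) (by omega)
    have a2 : (2 : ℤ) ^ k ≤ 2 ^ i := pow_le_pow_right₀ (by norm_num) (by omega)
    have a3 : (0 : ℤ) < 2 ^ l := by positivity
    rw [pow_succ] at h
    omega
  have mono : ∀ a b : ℕ, (2 : ℤ) ^ a < 2 ^ b ↔ a < b := fun a b =>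
    pow_lt_pow_iff_right₀ (by norm_num)
  rcases lt_or_gt_of_ne h1 with h3 | h3
  · have h4 : k < l := by rw [← mono] at h3 ⊢; omega
    have h5 := aux j i l k h3 (by omega)
    have h6 := aux l k j i h4 (by omega)
    have h7 : j = l := by omega
    subst h7
    have h8 := mono i k
    have h9 := mono k i
    omega
  · have h4 : l < k := by rw [← mono] at h3 ⊢; omega
    have h5 := aux i j k l h3 h
    have h6 := aux k l i j h4 h.symm
    omega

/-- The affine maps of `ZMod r` whose multiplier is a `p`-th root of unity. -/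
def Aff (r p : ℕ) : Subgroup (Equiv.Perm (ZMod r)) where
  carrier := {σ | ∃ (c : (ZMod r)ˣ) (n : ZMod r), c ^ p = 1 ∧ ∀ t, σ t = c * t + n}
  one_mem' := ⟨1, 0, one_pow _, by simp⟩
  mul_mem' := by
    rintro σ τ ⟨c, n, hc, h⟩ ⟨d, m, hd, h'⟩
    refine ⟨c * d, c * m + n, by rw [mul_pow, hc, hd, one_mul], fun t => ?_⟩
    simp only [Equiv.Perm.mul_apply, h, h', Units.val_mul]; ring
  inv_mem' := by
    rintro σ ⟨c, n, hc, h⟩
    refine ⟨c⁻¹, -(c⁻¹ * n), by rw [inv_pow, hc, inv_one], fun t => ?_⟩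
    rw [Equiv.Perm.inv_eq_iff_eq, h, mul_add, mul_neg, Units.mul_inv_cancel_left,
      Units.mul_inv_cancel_left]
    ring

variable {r p : ℕ}

/-- The translations. -/
def trA (r p : ℕ) : Multiplicative (ZMod r) →* Aff r p where
  toFun n := ⟨Equiv.addRight n.toAdd, 1, n.toAdd, one_pow _, by simp⟩
  map_one' := by ext t; simp
  map_mul' a b := by ext t; simp; ring

/-- The homotheties. -/
def mulA (r p : ℕ) : rootsOfUnity p (ZMod r) →* Aff r p where
  toFun c := ⟨Units.mulLeft c.1, c.1, 0, c.2, by simp⟩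
  map_one' := by ext t; simp
  map_mul' a b := by ext t; simp [mul_assoc]

@[simp] lemma trA_smul (n : Multiplicative (ZMod r)) (t : ZMod r) :
    trA r p n • t = t + n.toAdd := rfl

@[simp] lemma mulA_smul (c : rootsOfUnity p (ZMod r)) (t : ZMod r) :
    mulA r p c • t = (c.1 : ZMod r) * t := rfl

lemma Aff.ext' {σ τ : Aff r p} (h : ∀ t : ZMod r, σ • t = τ • t) : σ = τ :=
  Subtype.ext (Equiv.ext h)

lemma Aff.pow_smul (σ : Aff r p) (c : (ZMod r)ˣ) (h : ∀ t : ZMod r, σ • t = c * t + σ • (0 : ZMod r))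
    (k : ℕ) (t : ZMod r) : σ ^ k • t = (c ^ k : (ZMod r)ˣ) * t + σ ^ k • (0 : ZMod r) := by
  induction k with
  | zero => simp
  | succ k ih =>
    rw [pow_succ', mul_smul, mul_smul, ih, h, h (σ ^ k • (0 : ZMod r)), pow_succ', Units.val_mul]
    ring

lemma Aff.form (σ : Aff r p) : ∃ c : (ZMod r)ˣ, c ^ p = 1 ∧
    ∀ t : ZMod r, σ • t = c * t + σ • (0 : ZMod r) := by
  obtain ⟨σ, c, n, hc, h⟩ := σ
  refine ⟨c, hc, fun t => ?_⟩
  show σ t = c * t + σ 0
  rw [h, h]; simp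

lemma Aff.transl (σ : Aff r p) {m : ℕ} (h : σ ^ m = 1) (hc : m.Coprime p) :
    σ = trA r p (Multiplicative.ofAdd (σ • (0 : ZMod r))) := by
  obtain ⟨c, h1, h2⟩ := Aff.form σ
  have h3 := Aff.pow_smul σ c h2 m 1
  rw [h, one_smul, one_smul, mul_one, add_zero] at h3
  have h4 : c = 1 := eq_one_of_coprime (Units.ext h3.symm) h1 hc
  exact Aff.ext' fun t => by rw [h2, h4]; simp

lemma trA_pow (n : Multiplicative (ZMod r)) : trA r p n ^ r = 1 := by
  rw [← map_pow, show n ^ r = 1 from ?_, map_one]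
  apply Multiplicative.toAdd.injective
  simp

lemma mulA_pow (c : rootsOfUnity p (ZMod r)) : mulA r p c ^ p = 1 := by
  rw [← map_pow, show c ^ p = 1 from Subtype.ext c.2, map_one]

lemma Aff.pow_p [Fact r.Prime] (σ : Aff r p) {m : ℕ} (h : σ ^ m = 1) (hc : m.Coprime r) :
    σ ^ p = 1 := by
  obtain ⟨c, h1, h2⟩ := Aff.form σ
  have h3 : σ ^ p = trA r p (Multiplicative.ofAdd (σ ^ p • (0 : ZMod r))) :=
    Aff.ext' fun t => by rw [Aff.pow_smul σ c h2, h1]; simp
  refine eq_one_of_coprime (a := m) (b := r) ?_ ?_ hc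
  · rw [← pow_mul, mul_comm, pow_mul, h, one_pow]
  · rw [h3, trA_pow]

lemma Aff.noTors {q : ℕ} (h1 : q.Coprime p) (h2 : q.Coprime r) : NoTors q (Aff r p) := by
  intro σ a h
  refine eq_one_of_coprime h ?_ (h2.pow_left a)
  rw [Aff.transl σ h (h1.pow_left a), trA_pow]

end Pool.Agent.H152Z.Shun
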