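import Mathlib
import Pool.Agent.H152Z.Shun.Aff

set_option autoImplicit false
set_option linter.unusedSectionVars false

namespace Pool.Agent.H152Z.Shun

/-- Two elements whose orders are powers of one prime generate a finite subgroup. -/
def PP (G : Type) [Group G] : Prop :=
  ∀ q : ℕ, q.Prime → ∀ (a b : G) (k : ℕ), a ^ q ^ k = 1 → b ^ q ^ k = 1 →
    (Subgroup.closure ({a, b} : Set G) : Set G).Finite

lemma closure_pair_map {G H : Type} [Group G] [Group H] (f : G →* H) (a b : G) :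
    (Subgroup.closure ({f a, f b} : Set H) : Set H) =
      f '' (Subgroup.closure ({a, b} : Set G) : Set G) := by
  rw [← Subgroup.coe_map, MonoidHom.map_closure, Set.image_pair]

lemma KFin.range {R : ℕ} {X : Type} [Group X] (h : KFin R X) {ι : Type} [Fintype ι] (f : ι → X)
    (hc : Fintype.card ι ≤ R) : (Subgroup.closure (Set.range f) : Set X).Finite := by
  classical
  have := h (Finset.univ.image f) (Finset.card_image_le.trans hc)
  rwa [Finset.coe_image, Finset.coe_univ, Set.image_univ] at this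

namespace PW

variable {D Ω Γ : Type} [Group D] [Group Γ] [MulAction Γ Ω]

lemma right_pow {a : PW D Ω Γ} {n : ℕ} (h : a ^ n = 1) : a.right ^ n = 1 := by
  rw [← pow_right, h]; rfl

lemma left_pow {a : PW D Ω Γ} {n : ℕ} (h : a ^ n = 1) {x : Ω} (hx : a.right • x = x) :
    a.left x ^ n = 1 := by
  rw [← pow_left a x hx, h]; rfl

lemma pp_of_finite [Finite D] [Finite Ω] (h : PP Γ) : PP (PW D Ω Γ) := by
  intro q hq a b k ha hb
  refine finite_of_sections _ ?_ (fun _ => ⊤) (fun _ => Set.toFinite _) (by simp)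
  rw [Set.image_pair]
  exact h q hq _ _ k (right_pow ha) (right_pow hb)

lemma finite_of_gauge [Fintype Ω] {q R k o : ℕ} (hD : NoTors q D) (hR : KFin R D)
    (a b : PW D Ω Γ) (ha : a ^ q ^ k = 1) (hb : b ^ q ^ k = 1)
    (h1 : (Subgroup.closure ({a.right, b.right} : Set Γ) : Set Γ).Finite) (ho : 0 < o)
    (h2 : ∀ x : Ω, a.right ^ o • x = x) (h3 : ∀ x : Ω, b.right ^ o • x = x)
    (h4 : ∀ c, Fintype.card Ω ≤ o * c → Fintype.card Ω ≤ R + c) :
    (Subgroup.closure ({a, b} : Set (PW D Ω Γ)) : Set (PW D Ω Γ)).Finite := by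
  classical
  obtain ⟨g, hg, -⟩ := gauge hD a k ha o ho h2
  let e : PW D Ω Γ := inl g
  let b' : PW D Ω Γ := e⁻¹ * b * e
  have hb' : b' ^ q ^ k = 1 := by
    have : b' = (MulAut.conj e⁻¹) b := by simp [b']
    rw [this, ← map_pow, hb, map_one]
  have hr : b'.right = b.right := by simp [b', e]
  obtain ⟨g', hg', hc⟩ := gauge hD b' k hb' o ho (by rw [hr]; exact h3)
  have e1 : a = (MulAut.conj e).toMonoidHom (inr a.right) := by
    ext x
    · simp [e, hg]
    · simp [e]
  have e2 : b = (MulAut.conj e).toMonoidHom b' := by simp [b', mul_assoc]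
  rw [e1, e2, closure_pair_map]
  refine Set.Finite.image _ ?_
  let A : Finset D := (Finset.univ.filter fun x => ¬ g' x = 1).image g'
  have hA : ∀ x, g' x ∈ Subgroup.closure (A : Set D) := by
    intro x
    by_cases hx : g' x = 1
    · rw [hx]; exact Subgroup.one_mem _
    · exact Subgroup.subset_closure (Finset.mem_coe.2 (Finset.mem_image_of_mem _ (by simp [hx])))
  refine finite_of_sections _ ?_ (fun _ => Subgroup.closure (A : Set D))
    (fun _ => hR A (Finset.card_image_le.trans ?_)) ?_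
  · rw [Set.image_pair, hr]; exact h1
  · have h5 := Finset.card_filter_add_card_filter_not (s := Finset.univ) (fun x => g' x = 1)
    have h6 := h4 _ hc
    rw [Finset.card_univ] at h5
    omega
  · rintro s (rfl | rfl) x
    · exact ⟨rfl, Subgroup.one_mem _⟩
    · exact ⟨rfl, hg' x ▸ Subgroup.mul_mem _ (hA _) (Subgroup.inv_mem _ (hA _))⟩

lemma finite_of_transl [Finite Ω] [AddCommGroup Ω] {r R : ℕ} [NeZero r] [Module (ZMod r) Ω]
    (hR : KFin R D) (hr : 2 * (r * r) ≤ R) (a b : PW D Ω Γ)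
    (h1 : (Subgroup.closure ({a.right, b.right} : Set Γ) : Set Γ).Finite) (s t : Ω)
    (h2 : ∀ x : Ω, a.right • x = x + s) (h3 : ∀ x : Ω, b.right • x = x + t) :
    (Subgroup.closure ({a, b} : Set (PW D Ω Γ)) : Set (PW D Ω Γ)).Finite := by
  let F : Ω → Bool × ZMod r × ZMod r → D := fun x z =>
    (bif z.1 then a else b).left (x + z.2.1 • s + z.2.2 • t)
  have k1 : ∀ x, Set.range (F (x + s)) = Set.range (F x) := by
    intro x
    have : F (x + s) = F x ∘ fun z => (z.1, z.2.1 + 1, z.2.2) := by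
      funext z
      simp only [F, Function.comp, add_smul, one_smul]
      congr 1; abel
    rw [this]
    exact Function.Surjective.range_comp (fun z => ⟨(z.1, z.2.1 - 1, z.2.2), by simp⟩) _
  have k2 : ∀ x, Set.range (F (x + t)) = Set.range (F x) := by
    intro x
    have : F (x + t) = F x ∘ fun z => (z.1, z.2.1, z.2.2 + 1) := by
      funext z
      simp only [F, Function.comp, add_smul, one_smul]
      congr 1; abel
    rw [this]
    exact Function.Surjective.range_comp (fun z => ⟨(z.1, z.2.1, z.2.2 - 1), by simp⟩) _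
  refine finite_of_sections _ (by rw [Set.image_pair]; exact h1)
    (fun x => Subgroup.closure (Set.range (F x)))
    (fun x => hR.range _ (by simpa [ZMod.card] using hr)) ?_
  rintro c hc x
  have hs : ∀ y, Set.range (F (c.right • y)) = Set.range (F y) := by
    rcases hc with rfl | rfl
    · intro y; rw [h2, k1]
    · intro y; rw [h3, k2]
  refine ⟨by rw [hs], Subgroup.subset_closure ?_⟩
  rcases hc with rfl | rfl
  · exact ⟨(true, 0, 0), by simp [F]⟩
  · exact ⟨(false, 0, 0), by simp [F]⟩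

lemma absorb_base {S : Subgroup (PW D Ω Γ)} (hS : S.IsSubnormal) {τ : Γ} (hτ : inr τ ∈ S)
    {o m : ℕ} (ho : τ ^ o = 1) (f : Ω → D) (hf : ∀ y, (f y * (f (τ⁻¹ • y))⁻¹) ^ m = 1)
    (hc : o.Coprime m) : inl (fun y => f y * (f (τ⁻¹ • y))⁻¹) ∈ S := by
  have e : (inl f * inr τ * (inl f)⁻¹) * (inr τ)⁻¹ =
      (inl (fun y => f y * (f (τ⁻¹ • y))⁻¹) : PW D Ω Γ) := by
    ext y <;> simp
  rw [← e]
  refine absorb hS hτ ?_ ?_ hc
  · rw [conj_pow, ← map_pow, ho, map_one, mul_one, mul_inv_cancel]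
  · rw [e, ← map_pow, show (fun y => f y * (f (τ⁻¹ • y))⁻¹) ^ m = 1 from funext hf, map_one]

lemma exists_base [DecidableEq Ω] {S : Subgroup (PW D Ω Γ)} (hS : S.IsSubnormal) {o m : ℕ}
    (hc : o.Coprime m) (ω : Ω) (hτ : ∀ y, ∃ τ : Γ, inr τ ∈ S ∧ τ ^ o = 1 ∧ τ • y = ω)
    (v : Ω → D) (hv : ∀ y, v y ^ m = 1) (A : Finset Ω) (hA : ω ∉ A) :
    ∃ β : Ω → D, inl β ∈ S ∧ (∀ y ∈ A, β y = v y) ∧ ∀ y, y ∉ A → y ≠ ω → β y = 1 := by
  induction A using Finset.induction_on with
  | empty => exact ⟨1, by rw [map_one]; exact S.one_mem, by simp, by simp⟩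
  | insert x A hx ih =>
    obtain ⟨β, h1, h2, h3⟩ := ih fun h => hA (Finset.mem_insert_of_mem h)
    have hxω : x ≠ ω := fun h => hA (h ▸ Finset.mem_insert_self _ _)
    obtain ⟨τ, t1, t2, t3⟩ := hτ x
    let f : Ω → D := fun y => if y = x then v x else 1
    have k : ∀ y, τ⁻¹ • y = x ↔ y = ω := fun y => by rw [inv_smul_eq_iff, t3]
    have h4 := absorb_base hS t1 t2 f (m := m) (fun y => by
      by_cases hy : y = x
      · subst hy; simp [f, k, hxω, hv]
      · by_cases hy' : y = ω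
        · simp [f, k, hy', hv, hxω.symm]
        · simp [f, k, hy, hy']) hc
    refine ⟨_, by rw [map_mul]; exact S.mul_mem h1 h4, fun y hy => ?_, fun y hy hy' => ?_⟩
    · rcases Finset.mem_insert.1 hy with rfl | hy
      · simp [f, k, hxω, h3 y hx hxω]
      · have : y ≠ x := fun h => hx (h ▸ hy)
        have : y ≠ ω := fun h => hA (h ▸ Finset.mem_insert_of_mem hy)
        simp [f, *]
    · have h5 : y ≠ x := fun h => hy (h ▸ Finset.mem_insert_self _ _)
      have h6 := h3 y (fun h => hy (Finset.mem_insert_of_mem h)) hy'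
      simp [f, *]

lemma exists_infinite [Fintype Ω] [Infinite D] {S : Subgroup (PW D Ω Γ)} (hS : S.IsSubnormal)
    {o m R : ℕ} (hc : o.Coprime m) (hτ : ∀ y ω : Ω, ∃ τ : Γ, inr τ ∈ S ∧ τ ^ o = 1 ∧ τ • y = ω)
    (x : ℕ → D) (hx : ∀ i, x i ^ m = 1) (hgen : ∀ H : Subgroup D, (∀ i ≤ R, x i ∈ H) → H = ⊤)
    (σ τ : Γ) (h1 : inr σ ∈ S) (h2 : inr τ ∈ S) (x₀ : Ω) (T : Finset Ω)
    (hT : T.card + R + 2 ≤ Fintype.card Ω)
    (hC : ∀ C : Set Ω, x₀ ∈ C → (∀ y ∈ T, y ∈ C → σ • y ∈ C) → (∀ y ∈ C, τ • y ∈ C) →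
      ∀ y, y ∈ C) :
    ∃ a ∈ S, ∃ b ∈ S, (Subgroup.closure ({a, b} : Set (PW D Ω Γ)) : Set (PW D Ω Γ)).Infinite := by
  classical
  obtain ⟨ω, hω⟩ : ∃ ω, ω ∉ T := by
    by_contra hcon
    push Not at hcon
    have := Finset.card_le_card (fun y _ => hcon y : Finset.univ ⊆ T)
    rw [Finset.card_univ] at this
    omega
  let A : Finset Ω := (insert ω T)ᶜ
  have hA : R + 1 ≤ A.card := by
    rw [Finset.card_compl, Finset.card_insert_of_notMem hω]; omega
  let idx : Ω → ℕ := fun y => if h : y ∈ A then (A.equivFin ⟨y, h⟩ : ℕ) else 0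
  obtain ⟨β, b1, b2, b3⟩ := exists_base hS hc ω (fun y => hτ y ω) (fun y => x (idx y))
    (fun y => hx _) A (by simp [A])
  refine ⟨inr σ * inl β, S.mul_mem h1 b1, inr τ, h2, infinite_of_triv _ x₀ (hC _ (Triv.refl _ _)
    (fun y hy h => ?_) (fun y h => ?_)) fun H hH => hgen H fun i hi => ?_⟩
  · have := Triv.step h (g := inr σ * inl β) (Subgroup.subset_closure (by simp))
      (by simpa using b3 y (by simp [A, hy]) fun h => hω (h ▸ hy))
    rw [mul_right, inr_right, inl_right, mul_one] at this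
    exact this
  · exact Triv.step h (g := inr τ) (Subgroup.subset_closure (by simp)) rfl
  · let y := A.equivFin.symm ⟨i, by omega⟩
    have := hH (inr σ * inl β) (Subgroup.subset_closure (by simp)) y
    have e : idx y = i := by simp [idx, y]
    simpa [b2 y y.2, e] using this

end PW

end Pool.Agent.H152Z.Shun
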