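import Mathlib
import Pool.Agent.H152Z.Bin.Main
import Pool.Agent.H152Z.Shun.PW

set_option autoImplicit false

namespace Pool.Agent.H152Z.Shun

open Pool.Agent.H152Z.Bin

open Classical in
lemma stEx (B : ℕ) (s : St) (n : ℕ) : ∃ L : Lev, L.m = 2 * s.R + 1 ∧ n + B < L.p ∧ L.lb 0 = 1 ∧
    (∀ i ≤ 2 * (s.R * L.p ^ s.R) + 1, ∃ b, L.lb b = FreeGroup.of i) ∧
    ∀ S ∈ s.fam n, L.Kill S :=
  step s.R (n + B) (s.fam n) (s.inv n)

/-- The level chosen from a state. -/
noncomputable def stLev (B : ℕ) (s : St) (n : ℕ) : Lev := (stEx B s n).choose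

open Classical in
/-- The next state. -/
noncomputable def stSucc (B : ℕ) (s : St) (n : ℕ) : St where
  R := s.R * (stLev B s n).p ^ s.R
  fam i := (s.fam i).biUnion fun S => Finset.univ.image ((stLev B s n).next S)
  inv i S hS := by
    simp only [Finset.mem_biUnion, Finset.mem_image] at hS
    obtain ⟨S', hS', v, -, rfl⟩ := hS
    exact (stLev B s n).card_next S' v (s.inv i S' hS')

/-- The sequence of states. -/
noncomputable def stSeq (B : ℕ) (s : St) : ℕ → St
  | 0 => s
  | n + 1 => stSucc B (stSeq B s n) n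

open Classical in
theorem exists_tower (R B : ℕ) (e : ℕ → Finset F) (he : ∀ i, (e i).card ≤ R) :
    ∃ (L : ℕ → Lev) (fam : ℕ → ℕ → Finset (Finset F)), (L 0).m = 2 * R + 1 ∧
    (∀ n, n + B < (L n).p) ∧ (∀ n, (L n).lb 0 = 1) ∧
    (∀ n, ∀ i ≤ (L (n + 1)).m, ∃ b, (L n).lb b = FreeGroup.of i) ∧
    (∀ i, e i ∈ fam 0 i) ∧
    (∀ n i, ∀ S ∈ fam n i, ∀ v, (L n).next S v ∈ fam (n + 1) i) ∧
    ∀ n, ∀ S ∈ fam n n, (L n).Kill S := by
  let s : St := ⟨R, fun i => {e i}, fun i S hS => by rw [Finset.mem_singleton.1 hS]; exact he i⟩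
  refine ⟨fun n => stLev B (stSeq B s n) n, fun n => (stSeq B s n).fam,
    (stEx B s 0).choose_spec.1, fun n => (stEx B (stSeq B s n) n).choose_spec.2.1,
    fun n => (stEx B (stSeq B s n) n).choose_spec.2.2.1, fun n i hi => ?_, fun i => ?_,
    fun n i S hS v => ?_, fun n => (stEx B (stSeq B s n) n).choose_spec.2.2.2.2⟩
  · refine (stEx B (stSeq B s n) n).choose_spec.2.2.2.1 i ?_
    have h : (stLev B (stSeq B s (n + 1)) (n + 1)).m = 2 * (stSeq B s (n + 1)).R + 1 :=
      (stEx B (stSeq B s (n + 1)) (n + 1)).choose_spec.1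
    exact hi.trans (le_of_eq h)
  · exact Finset.mem_singleton_self _
  · show _ ∈ (stSucc B (stSeq B s n) n).fam i
    simp only [stSucc, Finset.mem_biUnion, Finset.mem_image]
    exact ⟨S, hS, v, Finset.mem_univ _, rfl⟩

theorem exists_Y (R B : ℕ) : ∃ (Y : Type) (_ : Group Y) (y : ℕ → Y),
    (∀ H : Subgroup Y, (∀ i ≤ 2 * R + 1, y i ∈ H) → H = ⊤) ∧ Infinite Y ∧ Countable Y ∧
    Group.ResiduallyFinite Y ∧ KFin R Y ∧ ∀ q : ℕ, q.Prime → q ≤ B → NoTors q Y := by
  classical
  have : Nonempty {S : Finset F // S.card ≤ R} := ⟨⟨∅, by simp⟩⟩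
  obtain ⟨e, he⟩ := exists_surjective_nat {S : Finset F // S.card ≤ R}
  obtain ⟨L, fam, hm, hp, h0, h1, h2, h3, h4⟩ := exists_tower R B (fun i => e i) (fun i => (e i).2)
  refine ⟨G L 0, inferInstance, fun i => mkG L 0 (FreeGroup.of i), fun H hH => ?_,
    infinite_G L (fun n => lt_of_le_of_lt (by omega) (hp n)) h0 h1,
    (QuotientGroup.mk'_surjective (Ninf L 0)).countable, ?_, ?_, ?_⟩
  · exact gen_top L 0 H fun i hi => hH i (hm ▸ hi)
  · rw [Group.residuallyFinite_iff_exists_finiteIndex]
    intro g hg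
    obtain ⟨w, rfl⟩ := QuotientGroup.mk'_surjective _ g
    have hw : w ∉ Ninf L 0 := fun h => hg ((QuotientGroup.eq_one_iff _).2 h)
    rw [Ninf, Subgroup.mem_iInf, not_forall] at hw
    obtain ⟨k, hk⟩ := hw
    exact ⟨Stab L k, inferInstance, fun h => hk ((mem_Stab L).1 h)⟩
  · intro S hS
    choose σ hσ using QuotientGroup.mk'_surjective (Ninf L 0)
    obtain ⟨i, hi⟩ := he ⟨S.image σ, Finset.card_image_le.trans hS⟩
    have h5 := finGen_all L fam h3 h4 i i 0 (zero_add i) _ (h2 i)
    rw [hi] at h5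
    unfold FinGen at h5
    rw [← Subgroup.coe_map, MonoidHom.map_closure] at h5
    have h6 : mkG L 0 '' ((S.image σ : Finset F) : Set F) = (S : Set (G L 0)) := by
      rw [Finset.coe_image, Set.image_image]
      simp only [hσ, Set.image_id']
    rwa [h6] at h5
  · intro q hq hqB g a hg
    obtain ⟨w, rfl⟩ := QuotientGroup.mk'_surjective _ g
    have h7 : w ^ (q ^ a) ∈ Ninf L 0 := by
      rw [← QuotientGroup.eq_one_iff]
      exact hg
    refine (QuotientGroup.eq_one_iff _).2 ?_
    exact torsion_free L q a hq 0 0 w (fun j _ => lt_of_le_of_lt (by omega) (hp j)) trivial h7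

lemma noTors_of_pow {G : Type} [Group G] {p q : ℕ} (h : ∀ g : G, g ^ p = 1) (hc : p.Coprime q) :
    NoTors q G := by
  intro g a hg
  have h1 := orderOf_dvd_of_pow_eq_one (h g)
  have h2 := orderOf_dvd_of_pow_eq_one hg
  exact orderOf_eq_one_iff.1 (Nat.eq_one_of_dvd_coprimes (hc.pow_right a) h1 h2)

lemma exists_lab (R p : ℕ) [hp : Fact p.Prime] (hR : 1 ≤ R) (h : 4 * R + 5 ≤ p) :
    ∃ lab : TA R p → ℕ, ∀ i ≤ 2 * (R * p ^ R) + 1, ∃ x : TA R p, x.1 ≠ 0 ∧ x.2 ≠ 0 ∧ lab x = i := by
  classical
  have hc : Fintype.card (Fin (2 * (R * p ^ R) + 2)) ≤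
      Fintype.card ({a : ZMod p // a ≠ 0} × {b : Fin R → ZMod p // b ≠ 0}) := by
    rw [Fintype.card_fin, Fintype.card_prod, Fintype.card_subtype_compl, Fintype.card_subtype_compl,
      ZMod.card, Fintype.card_fun, ZMod.card, Fintype.card_fin, Fintype.card_unique,
      Fintype.card_unique]
    have h1 : p ≤ p ^ R := Nat.le_self_pow (by omega) p
    obtain ⟨t, ht⟩ : ∃ t, p ^ R = t + 1 := ⟨p ^ R - 1, by omega⟩
    obtain ⟨u, hu⟩ : ∃ u, p = u + 1 := ⟨p - 1, by omega⟩
    rw [ht]
    have h2 : p - 1 = u := by omega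
    rw [h2, Nat.add_sub_cancel]
    have h3 : 4 * R + 4 ≤ u := by omega
    have h4 : 1 ≤ t := by omega
    nlinarith
  obtain ⟨f⟩ := Function.Embedding.nonempty_of_card_le hc
  let f' : Fin (2 * (R * p ^ R) + 2) → TA R p := fun i => ((f i).1, (f i).2)
  have hf' : Function.Injective f' := fun i j hij => f.injective
    (Prod.ext (Subtype.ext (congrArg Prod.fst hij)) (Subtype.ext (congrArg Prod.snd hij)))
  refine ⟨Function.extend f' (fun i => i) 0, fun i hi => ?_⟩
  exact ⟨f' ⟨i, by omega⟩, (f _).1.2, (f _).2.2, hf'.extend_apply _ _ _⟩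

/-- The translation group, written multiplicatively. -/
abbrev MA (R p : ℕ) : Type := Multiplicative (TA R p)

theorem exists_X (R B : ℕ) (hR : 1 ≤ R) : ∃ (X : Type) (_ : Group X) (p : ℕ) (x : ℕ → X),
    p.Prime ∧ B < p ∧ (∀ i, x i ^ p = 1) ∧
    (∀ H : Subgroup X, (∀ i ≤ R, x i ∈ H) → H = ⊤) ∧ Infinite X ∧ Countable X ∧
    Group.ResiduallyFinite X ∧ KFin R X ∧ ∀ q : ℕ, q.Prime → q ≤ B → NoTors q X := by
  classical
  obtain ⟨p, hpN, hp⟩ := Nat.exists_infinite_primes (B + 1 + (4 * R + 5))
  have : Fact p.Prime := ⟨hp⟩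
  obtain ⟨Y, _, y, hY1, hY2, hY3, hY4, hY5, hY6⟩ := exists_Y (R * p ^ R) B
  obtain ⟨lb, hlb⟩ := exists_lab R p hR (by omega)
  let lab : MA R p → Y := fun x => if x.toAdd.1 ≠ 0 ∧ x.toAdd.2 ≠ 0 then y (lb x.toAdd) else 1
  let c : PW Y (MA R p) (MA R p) := PW.inl lab
  let a : ℕ → MA R p := fun j => Multiplicative.ofAdd (ev R p j)
  let g : ℕ → PW Y (MA R p) (MA R p) := fun j => if j = 0 then c * PW.inr (a j) * c⁻¹ else PW.inr (a j)
  have hA : ∀ z : MA R p, z ^ p = 1 := by
    intro z
    apply Multiplicative.toAdd.injective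
    rw [toAdd_pow, ← Nat.cast_smul_eq_nsmul (ZMod p)]
    simp
  have hg : ∀ j, g j ^ p = 1 := by
    intro j
    simp only [g]
    split_ifs
    · rw [conj_pow, ← map_pow, hA, map_one]; simp
    · rw [← map_pow, hA, map_one]
  let L : Subgroup (PW Y (MA R p) (MA R p)) := Subgroup.closure (g '' Set.Iic R)
  have hgL : ∀ j ≤ R, g j ∈ L := fun j hj => Subgroup.subset_closure ⟨j, hj, rfl⟩
  have hRF : Group.ResiduallyFinite (PW Y (MA R p) (MA R p)) := PW.residuallyFinite
  have hg0 : ∀ z : MA R p, (g 0).left z = lab (a 0 * z) * (lab z)⁻¹ := by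
    intro z; simp [g, c]
  have hg0' : (g 0).right = a 0 := by simp [g, c]
  refine ⟨L, inferInstance, p, fun i => if h : i ≤ R then ⟨g i, hgL i h⟩ else 1, hp, by omega,
    fun i => ?_, fun H hH => ?_, ?_, inferInstance, inferInstance, ?_, ?_⟩
  · by_cases h : i ≤ R
    · simp only [h, dif_pos]; exact Subtype.ext (hg i)
    · simp [h]
  · have h1 : L ≤ H.map L.subtype := by
      refine (Subgroup.closure_le _).2 ?_
      rintro _ ⟨i, hi, rfl⟩
      have := hH i hi
      simp only [show i ≤ R from hi, dif_pos] at this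
      exact ⟨_, this, rfl⟩
    rw [eq_top_iff]
    rintro ⟨z, hz⟩ -
    obtain ⟨w, hw, rfl⟩ := h1 hz
    exact hw
  · refine Set.infinite_coe_iff.2 (PW.infinite_of_triv L (1 : MA R p) (fun x => ?_) fun H hH => ?_)
    · have h1 : ∀ k : ℕ, PW.Triv L (1 : MA R p) (Multiplicative.ofAdd ((k : ZMod p), 0)) := by
        intro k
        induction k with
        | zero => rw [Nat.cast_zero]; exact PW.Triv.refl L (1 : MA R p)
        | succ k ih =>
          have := ih.step (hgL 0 (by omega)) (by rw [hg0]; simp [lab, a, ev])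
          rw [hg0'] at this
          convert this using 1
          apply Multiplicative.toAdd.injective
          simp [a, ev, add_comm]
      let U : AddSubmonoid (Fin R → ZMod p) :=
        { carrier := {b | ∀ z : MA R p, PW.Triv L 1 z → PW.Triv L 1 (Multiplicative.ofAdd (0, b) * z)}
          zero_mem' := fun z hz => by
            have : (Multiplicative.ofAdd ((0 : ZMod p), (0 : Fin R → ZMod p)) : MA R p) = 1 := rfl
            rwa [this, one_mul]
          add_mem' := fun {b b'} hb hb' z hz => by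
            have := hb _ (hb' z hz)
            rwa [← mul_assoc, ← ofAdd_add, Prod.mk_add_mk, add_zero] at this }
      have h2 : ∀ j : Fin R, Pi.single j 1 ∈ U := by
        intro j z hz
        have := hz.step (hgL (j + 1) (by omega)) (by simp [g])
        simpa [g, a, ev] using this
      have h3 : x.toAdd.2 ∈ U := by
        rw [← Finset.univ_sum_single x.toAdd.2]
        refine U.sum_mem fun j _ => ?_
        have : (Pi.single j (x.toAdd.2 j) : Fin R → ZMod p) = (x.toAdd.2 j).val • Pi.single j 1 := by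
          rw [← Pi.single_smul', nsmul_eq_mul, mul_one, ZMod.natCast_zmod_val]
        rw [this]
        exact U.nsmul_mem (h2 j) _
      have h4 := h3 _ (h1 x.toAdd.1.val)
      convert h4 using 1
      apply Multiplicative.toAdd.injective
      simp
    · have h1 : ∀ (b : Fin R → ZMod p) (k : ℕ), lab (Multiplicative.ofAdd ((k : ZMod p), b)) ∈ H := by
        intro b k
        induction k with
        | zero => simp [lab]
        | succ k ih =>
          have h2 := hH _ (hgL 0 (by omega)) (Multiplicative.ofAdd ((k : ZMod p), b))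
          rw [hg0] at h2
          have h3 := H.mul_mem h2 ih
          rw [inv_mul_cancel_right] at h3
          convert h3 using 2
          apply Multiplicative.toAdd.injective
          simp [a, ev, add_comm]
      refine hY1 H fun i hi => ?_
      obtain ⟨z, hz1, hz2, hz3⟩ := hlb i hi
      have h4 := h1 z.2 z.1.val
      simp only [ZMod.natCast_zmod_val, lab, toAdd_ofAdd, hz1, hz2, ne_eq, not_false_eq_true,
        and_self, if_true, Prod.mk.eta, hz3] at h4
      exact h4
  · intro S hS
    let V : Submodule (ZMod p) (TA R p) :=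
      Submodule.span (ZMod p) (S.image fun s : L => (s : PW Y (MA R p) (MA R p)).right.toAdd)
    let VF : Finset (TA R p) := Finset.univ.filter (· ∈ V)
    have hV : VF.card ≤ p ^ R := by
      have h1 : VF.card = Nat.card V := by
        rw [← Nat.card_eq_finsetCard]
        exact Nat.card_congr (Equiv.subtypeEquivRight fun x => by simp [VF])
      rw [h1, Module.natCard_eq_pow_finrank (K := ZMod p), Nat.card_zmod]
      refine Nat.pow_le_pow_right hp.pos ?_
      exact (finrank_span_finset_le_card (R := ZMod p) _).trans (Finset.card_image_le.trans hS)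
    let T : MA R p → Finset Y := fun z => Finset.image₂
      (fun (s : L) (v : TA R p) => (s : PW Y (MA R p) (MA R p)).left (Multiplicative.ofAdd v * z)) S VF
    have h1 := PW.finite_of_sections (L.subtype '' S) (Set.toFinite _)
      (fun z => Subgroup.closure (T z : Set Y))
      (fun z => hY5 _ ((Finset.card_image₂_le _ _ _).trans (Nat.mul_le_mul hS hV))) (by
        rintro _ ⟨s, hs, rfl⟩ z
        have hs' : (s : PW Y (MA R p) (MA R p)).right.toAdd ∈ V :=
          Submodule.subset_span (Finset.mem_coe.2 (Finset.mem_image_of_mem _ hs))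
        constructor
        · congr 2
          ext w
          simp only [T, Finset.mem_image₂, VF, Finset.mem_filter, Finset.mem_univ, true_and]
          constructor
          · rintro ⟨t, ht, v, hv, rfl⟩
            refine ⟨t, ht, v + (s : PW Y (MA R p) (MA R p)).right.toAdd, V.add_mem hv hs', ?_⟩
            simp [mul_assoc]
          · rintro ⟨t, ht, v, hv, rfl⟩
            refine ⟨t, ht, v - (s : PW Y (MA R p) (MA R p)).right.toAdd, V.sub_mem hv hs', ?_⟩
            simp [div_eq_mul_inv, mul_assoc]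
        · refine Subgroup.subset_closure (Finset.mem_coe.2 (Finset.mem_image₂.2
            ⟨s, hs, 0, by simp [VF], by simp⟩)))
    rw [← MonoidHom.map_closure, Subgroup.coe_map] at h1
    exact Set.Finite.of_finite_image h1 L.subtype_injective.injOn
  · intro q hq hqB z k hz
    have h1 : NoTors q (PW Y (MA R p) (MA R p)) := PW.noTors (hY6 q hq hqB)
      (noTors_of_pow hA ((Nat.coprime_primes hp hq).2 (by omega)))
    exact Subtype.ext (h1 z k (congrArg Subtype.val hz))

end Pool.Agent.H152Z.Shun
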