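import Mathlib
import Pool.Agent.H152Z.Shun.Gen
import Pool.Agent.H152Z.Shun.Golod

set_option autoImplicit false
set_option linter.unusedSectionVars false

namespace Pool.Agent.H152Z.Shun

variable {U Z : Type} [Group U] [MulAction U Z] {r p : ℕ}

section act

variable {D Y : Type} [Group D] [MulAction D Y]

/-- The product action of a wreath product. -/
instance prodAct : MulAction (PW D Z U) (Z → Y) where
  smul γ w z := γ.left (γ.right⁻¹ • z) • w (γ.right⁻¹ • z)
  one_smul w := funext fun z => by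
    show (1 : D) • w ((1 : U)⁻¹ • z) = _
    simp
  mul_smul a b w := funext fun z => by
    show (a * b).left ((a * b).right⁻¹ • z) • w ((a * b).right⁻¹ • z) =
      a.left (a.right⁻¹ • z) • b.left (b.right⁻¹ • a.right⁻¹ • z) • w (b.right⁻¹ • a.right⁻¹ • z)
    simp [mul_smul]

lemma act_of_triv (γ : PW D Z U) (h : ∀ z : Z, γ.right • z = z) (w : Z → Y) (z : Z) :
    (γ • w) z = γ.left z • w z := by
  show γ.left (γ.right⁻¹ • z) • w (γ.right⁻¹ • z) = _
  rw [inv_smul_eq_iff.2 (h z).symm]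

lemma inl_act (f : Z → D) (w : Z → Y) (z : Z) :
    ((PW.inl f : PW D Z U) • w) z = f z • w z := act_of_triv _ (by simp) w z

end act

lemma pow_card_smul [Fintype Z] (g : U) (z : Z) : g ^ (Fintype.card Z).factorial • z = z := by
  classical
  have h : MulAction.toPermHom U Z g ^ (Fintype.card Z).factorial = 1 := by
    rw [← Fintype.card_perm, pow_card_eq_one]
  rw [← map_pow] at h
  exact DFunLike.congr_fun h z

lemma smul_of_coprime [Fintype Z] {g : U} {n : ℕ} (h : g ^ n = 1)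
    (hc : n.Coprime (Fintype.card Z).factorial) (z : Z) : g • z = z := by
  have h1 : MulAction.toPermHom U Z g = 1 := by
    refine eq_one_of_coprime (by rw [← map_pow, h, map_one]) ?_ hc
    rw [← map_pow]
    exact Equiv.ext fun z => pow_card_smul g z
  exact DFunLike.congr_fun h1 z

theorem pp_step [Fintype Z] [DecidableEq Z] [Fact r.Prime] (hp : p.Prime) (hU : PP U)
    (h1 : (Fintype.card Z).factorial < p) (h2 : p < r) {X : Type} [Group X] {R : ℕ}
    (hX : KFin R X) (hX' : ∀ q : ℕ, q.Prime → q ≤ r → NoTors q X) (hR1 : 2 * (r * r) ≤ R)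
    (hR2 : Fintype.card (Z → ZMod r) ≤ R + Fintype.card (Z → ZMod r) / p) :
    PP (PW X (Z → ZMod r) (PW (Aff r p) Z U)) := by
  intro q hq a b k ha hb
  have hr : r.Prime := Fact.out
  have ht := PW.pp_of_finite (D := Aff r p) (Ω := Z) hU q hq _ _ k (PW.right_pow ha)
    (PW.right_pow hb)
  have h4 : ∀ o ≤ p, ∀ c, Fintype.card (Z → ZMod r) ≤ o * c →
      Fintype.card (Z → ZMod r) ≤ R + c := fun o ho c hc =>
    hR2.trans (Nat.add_le_add_left
      (Nat.div_le_of_le_mul (hc.trans (Nat.mul_le_mul_right _ ho))) _)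
  by_cases hqm : q ≤ (Fintype.card Z).factorial
  · have key : ∀ γ : PW (Aff r p) Z U, γ ^ q ^ k = 1 → ∀ x : Z → ZMod r,
        γ ^ (Fintype.card Z).factorial • x = x := by
      intro γ hγ x
      have e1 : ∀ z : Z, (γ ^ (Fintype.card Z).factorial).right • z = z := fun z => by
        rw [PW.pow_right, pow_card_smul]
      funext z
      rw [act_of_triv _ e1, Aff.noTors ((Nat.coprime_primes hq hp).2 (by omega))
        ((Nat.coprime_primes hq hr).2 (by omega)) _ k (PW.left_pow (by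
          rw [← pow_mul, mul_comm, pow_mul, hγ, one_pow]) (e1 z)), one_smul]
    exact PW.finite_of_gauge (hX' q hq (by omega)) hX a b ha hb ht (Nat.factorial_pos _)
      (key _ (PW.right_pow ha)) (key _ (PW.right_pow hb)) (h4 _ h1.le)
  have e1 : ∀ γ : PW (Aff r p) Z U, γ ^ q ^ k = 1 → ∀ z : Z, γ.right • z = z := fun γ hγ =>
    smul_of_coprime (PW.right_pow hγ) (Nat.Coprime.pow_left _
      ((Nat.Prime.coprime_iff_not_dvd hq).2 fun h =>
        hqm (Nat.le_of_dvd (Nat.factorial_pos _) h)))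
  by_cases hqp : q = p
  · subst hqp
    have key : ∀ γ : PW (Aff r q) Z U, γ ^ q ^ k = 1 → ∀ x : Z → ZMod r, γ ^ q • x = x := by
      intro γ hγ x
      funext z
      rw [act_of_triv _ (e1 _ (by rw [← pow_mul, mul_comm, pow_mul, hγ, one_pow])),
        PW.pow_left _ _ (e1 γ hγ z), Aff.pow_p _ (PW.left_pow hγ (e1 γ hγ z))
        (Nat.Coprime.pow_left _ ((Nat.coprime_primes hq hr).2 (by omega))), one_smul]
    exact PW.finite_of_gauge (hX' q hq (by omega)) hX a b ha hb ht hq.pos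
      (key _ (PW.right_pow ha)) (key _ (PW.right_pow hb)) (h4 _ le_rfl)
  · have key : ∀ γ : PW (Aff r p) Z U, γ ^ q ^ k = 1 → ∀ x : Z → ZMod r,
        γ • x = x + fun z => γ.left z • (0 : ZMod r) := by
      intro γ hγ x
      funext z
      rw [act_of_triv _ (e1 γ hγ), Aff.transl _ (PW.left_pow hγ (e1 γ hγ z))
        (Nat.Coprime.pow_left _ ((Nat.coprime_primes hq hp).2 hqp))]
      rfl
    exact PW.finite_of_transl hX hR1 a b ht _ _ (key _ (PW.right_pow ha))
      (key _ (PW.right_pow hb))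

/-- The diagonal elements. -/
def dg (U : Type) [Group U] [MulAction U Z] (c : Z → rootsOfUnity p (ZMod r)) :
    PW (Aff r p) Z U := PW.inl fun z => mulA r p (c z)

/-- The translations. -/
def tr (U : Type) [Group U] [MulAction U Z] (p : ℕ) (n : Z → ZMod r) :
    PW (Aff r p) Z U := PW.inl fun z => trA r p (Multiplicative.ofAdd (n z))

lemma dg_smul (c : Z → rootsOfUnity p (ZMod r)) (w : Z → ZMod r) :
    dg U c • w = (fun z => ((c z).1 : ZMod r)) * w := funext fun z => inl_act _ w z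

lemma tr_smul (n w : Z → ZMod r) : tr U p n • w = w + n := funext fun z => inl_act _ w z

lemma dg_pow (c : Z → rootsOfUnity p (ZMod r)) : dg U c ^ p = 1 := by
  rw [dg, ← map_pow, show (fun z => mulA r p (c z)) ^ p = 1 from funext fun z => mulA_pow _,
    map_one]

lemma tr_pow (n : Z → ZMod r) : tr U p n ^ r = 1 := by
  rw [tr, ← map_pow, show (fun z => trA r p (Multiplicative.ofAdd (n z))) ^ r = 1 from
    funext fun z => trA_pow _, map_one]

lemma dg_mem {S : Subgroup (PW (Aff r p) Z U)} (hS : S.IsSubnormal) {u : U} (hu : PW.inr u ∈ S)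
    {o : ℕ} (ho : u ^ o = 1) (hc : o.Coprime p) (c : Z → rootsOfUnity p (ZMod r)) :
    dg U (fun z => c z * (c (u⁻¹ • z))⁻¹) ∈ S := by
  have := PW.absorb_base hS hu ho (fun z => mulA r p (c z)) (m := p)
    (fun y => by rw [← map_inv, ← map_mul, mulA_pow]) hc
  simpa only [dg, map_mul, map_inv] using this

lemma tr_mem [Fact r.Prime] {S : Subgroup (PW (Aff r p) Z U)} (hS : S.IsSubnormal)
    {c : Z → rootsOfUnity p (ZMod r)} (hd : dg U c ∈ S) (h1 : ∀ z, c z ≠ 1) (hc : p.Coprime r)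
    (n : Z → ZMod r) : tr U p n ∈ S := by
  let n' : Z → ZMod r := fun z => n z / (1 - ((c z).1 : ZMod r))
  have e : tr U p n' * dg U c * (tr U p n')⁻¹ * (dg U c)⁻¹ = tr U p n := by
    rw [mul_inv_eq_iff_eq_mul, mul_inv_eq_iff_eq_mul]
    refine PW.ext (funext fun z => Aff.ext' fun t => ?_) (by simp [tr, dg])
    have : (1 : ZMod r) - ((c z).1 : ZMod r) ≠ 0 := fun h =>
      h1 z (Subtype.ext (Units.ext (sub_eq_zero.1 h).symm))
    simp only [tr, dg, PW.mul_left, PW.inl_left, PW.inl_right, one_smul, mul_smul, trA_smul,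
      mulA_smul, toAdd_ofAdd, n']
    field_simp
    ring
  rw [← e]
  refine absorb hS hd (o := p) ?_ (by rw [e, tr_pow]) hc
  rw [conj_pow, dg_pow, mul_one, mul_inv_cancel]

lemma exists_c [Fintype Z] (ζ : (ZMod r)ˣ) (hζ : orderOf ζ = p)
    (hp : 2 ^ (Fintype.card Z + 1) ≤ p) (v : U) (hv : ∀ z : Z, v • z ≠ z) :
    ∃ c : Z → rootsOfUnity p (ZMod r), (∀ z, c z * (c (v • z))⁻¹ ≠ 1) ∧
      Function.Injective fun z => (((c z * (c (v • z))⁻¹).1 : (ZMod r)ˣ) : ZMod r) := by
  let ι : Z → ℕ := fun z => Fintype.equivFin Z z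
  have hι : Function.Injective ι := Fin.val_injective.comp (Fintype.equivFin Z).injective
  have h0 : ∀ z, (0 : ℤ) < 2 ^ ι z := fun z => by positivity
  have h1 : ∀ z, (2 : ℤ) ^ ι z < 2 ^ Fintype.card Z := fun z =>
    pow_lt_pow_right₀ (by norm_num) (Fintype.equivFin Z z).2
  have h2 : ∀ A B : ℤ, |B - A| < 2 ^ (Fintype.card Z + 1) → ζ ^ A = ζ ^ B → A = B := by
    intro A B h h'
    rw [zpow_eq_zpow_iff_modEq, hζ] at h'
    have := Int.eq_zero_of_abs_lt_dvd h'.dvd (h.trans_le (by exact_mod_cast hp))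
    omega
  let c : Z → rootsOfUnity p (ZMod r) := fun z => ⟨ζ ^ 2 ^ ι z, by
    rw [mem_rootsOfUnity, ← pow_mul, mul_comm, pow_mul, ← hζ, pow_orderOf_eq_one, one_pow]⟩
  have h3 : ∀ z, (c z * (c (v • z))⁻¹).1 = ζ ^ ((2 : ℤ) ^ ι z - 2 ^ ι (v • z)) := by
    intro z
    rw [zpow_sub]
    simp only [c, Subgroup.coe_mul, Subgroup.coe_inv]
    norm_cast
  have h4 : ∀ z, ι z ≠ ι (v • z) := fun z h => hv z (hι h).symm
  refine ⟨c, fun z h => ?_, fun z w h => hι ?_⟩
  · have h5 := h3 z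
    rw [h, OneMemClass.coe_one, ← zpow_zero ζ] at h5
    have h6 := h2 _ _ (by
      have := h0 z; have := h1 z; have := h0 (v • z); have := h1 (v • z)
      rw [pow_succ, abs_lt]; omega) h5
    exact h4 z (Nat.pow_right_injective le_rfl (by exact_mod_cast sub_eq_zero.1 h6.symm))
  · have h5 := Units.ext h
    rw [h3, h3] at h5
    refine two_pow_sub (h4 z) (h4 w) (h2 _ _ ?_ h5)
    have := h0 z; have := h1 z; have := h0 (v • z); have := h1 (v • z)
    have := h0 w; have := h1 w; have := h0 (v • w); have := h1 (v • w)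
    rw [pow_succ, abs_lt]; omega

/-- The properties kept along the tower. -/
def Good (U : Type) [Group U] : Prop :=
  Countable U ∧ Group.ResiduallyFinite U ∧ IsMulTorsion U ∧ NoTors 2 U ∧ PP U

theorem step_aux [Fintype Z] (hU : Good U) (u : U) (hu : ∀ z : Z, u • z ≠ z)
    (hZ : 3 ≤ Fintype.card Z) : ∃ (V : Type) (_ : Group V) (ι : U →* V), Good V ∧
      Function.Injective ι ∧ ∀ S : Subgroup V, S.IsSubnormal → ι u ∈ S →
        ∃ a ∈ S, ∃ b ∈ S, (Subgroup.closure ({a, b} : Set V) : Set V).Infinite := by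
  classical
  obtain ⟨u1, u2, u3, u4, u5⟩ := hU
  obtain ⟨p, hpN, hp⟩ := Nat.exists_infinite_primes
    ((Fintype.card Z).factorial + 2 ^ (Fintype.card Z + 1) + orderOf u + 3)
  obtain ⟨hp1, hp2, hp3, hp4⟩ : (Fintype.card Z).factorial < p ∧ 2 ^ (Fintype.card Z + 1) ≤ p ∧
      orderOf u < p ∧ 3 ≤ p := by
    generalize 2 ^ (Fintype.card Z + 1) = N at *
    omega
  obtain ⟨r, hr, hrp, hr1⟩ := Nat.exists_prime_gt_modEq_one (2 * p) hp.ne_zero
  have : Fact r.Prime := ⟨hr⟩
  have : Fact p.Prime := ⟨hp⟩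
  obtain ⟨ζ, hζ⟩ := exists_prime_orderOf_dvd_card (G := (ZMod r)ˣ) p (by
    rw [ZMod.card_units]; exact (Nat.modEq_iff_dvd' hr.one_lt.le).1 hr1.symm)
  obtain ⟨c, hc1, hc2⟩ := exists_c ζ hζ hp2 u⁻¹
    (fun z : Z => fun h => hu z (inv_smul_eq_iff.1 h).symm)
  obtain ⟨s, hs⟩ : ∃ s, s = Fintype.card (Z → ZMod r) := ⟨_, rfl⟩
  have hs3 : r ^ 3 ≤ s := by
    rw [hs, Fintype.card_fun, ZMod.card]; exact Nat.pow_le_pow_right hr.pos hZ
  have hsp : s / p ≤ s / 2 := Nat.div_le_div_left hp.two_le two_pos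
  have hR1 : 2 * (r * r) ≤ s - s / p := by
    have : 4 * (r * r) ≤ r ^ 3 := by
      rw [pow_succ', sq]; exact Nat.mul_le_mul_right _ (by omega)
    omega
  obtain ⟨X, _, P, x, x1, x2, x3, x4, x5, x6, x7, x8, x9⟩ := exists_X (s - s / p) r
    (by have := Nat.mul_pos hr.pos hr.pos; omega)
  have hXt : IsMulTorsion X := fun g => by
    have := x8 {g} (by have := Nat.mul_pos hr.pos hr.pos; rw [Finset.card_singleton]; omega)
    rwa [Finset.coe_singleton, ← Subgroup.zpowers_eq_closure, finite_zpowers] at this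
  refine ⟨PW X (Z → ZMod r) (PW (Aff r p) Z U), inferInstance, PW.inr.comp PW.inr,
    ⟨inferInstance, ?_, PW.isTorsion hXt (PW.isTorsion (fun g => isOfFinOrder_of_finite g) u3),
      PW.noTors (x9 2 Nat.prime_two hr.two_le) (PW.noTors (Aff.noTors
        ((Nat.coprime_primes Nat.prime_two hp).2 (by omega))
        ((Nat.coprime_primes Nat.prime_two hr).2 (by omega))) u4),
      pp_step hp u5 hp1 (by omega) x8 x9 hR1 (by rw [← hs]; omega)⟩,
    PW.inr_inj.comp PW.inr_inj, fun S hS h => ?_⟩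
  · have : Group.ResiduallyFinite (PW (Aff r p) Z U) := PW.residuallyFinite
    exact PW.residuallyFinite
  have hS' := hS.comap (PW.inr : PW (Aff r p) Z U →* _)
  have k1 := dg_mem hS' h (pow_orderOf_eq_one u) (Nat.Coprime.symm
    ((Nat.Prime.coprime_iff_not_dvd hp).2 fun h' =>
      absurd (Nat.le_of_dvd (u3 u).orderOf_pos h') (by omega))) c
  have k2 := tr_mem hS' k1 hc1 ((Nat.coprime_primes hp hr).2 (by omega))
  obtain ⟨z₀⟩ : Nonempty Z := Fintype.card_pos_iff.1 (by omega)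
  obtain ⟨T, hT, hC⟩ := connect
    (fun w : Z → ZMod r => (fun z => (((c z * (c (u⁻¹ • z))⁻¹).1 : (ZMod r)ˣ) : ZMod r)) * w)
    (fun w => w + 1) (add_left_injective 1) r hr.pos (fun w i hi j hj hij => by
      have h1 := congrFun hij z₀
      simp only [add_right_iterate, Pi.add_apply, Pi.smul_apply, Pi.one_apply, nsmul_eq_mul,
        mul_one, add_right_inj] at h1
      exact Nat.ModEq.eq_of_lt_of_lt ((ZMod.natCast_eq_natCast_iff _ _ _).1 h1) hi hj) 0
    (vandermonde _ hc2 fun z => Units.ne_zero _)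
  refine PW.exists_infinite hS ((Nat.coprime_primes hr x1).2 (by omega))
    (fun y ω => ⟨tr U p (ω - y), k2 _, tr_pow _, by rw [tr_smul, add_sub_cancel]⟩) x x3 x4
    _ (tr U p 1) k1 (k2 _) 0 T ?_ fun C c0 c1 c2 => hC C c0 ?_ ?_
  · rw [← hs] at hT ⊢
    have h1 : T.card + 2 ≤ s / p := by
      rw [Nat.le_div_iff_mul_le hp.pos]; nlinarith
    have := Nat.div_le_self s p
    omega
  · simpa only [dg_smul] using c1
  · simpa only [tr_smul] using c2

theorem step (U : Type) [Group U] (hU : Good U) (u : U) :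
    ∃ (V : Type) (_ : Group V) (ι : U →* V), Good V ∧ Function.Injective ι ∧
      (u ≠ 1 → ∀ S : Subgroup V, S.IsSubnormal → ι u ∈ S →
        ∃ a ∈ S, ∃ b ∈ S, (Subgroup.closure ({a, b} : Set V) : Set V).Infinite) := by
  classical
  by_cases hu : u = 1
  · exact ⟨U, inferInstance, MonoidHom.id U, hU, fun _ _ h => h, fun h => absurd hu h⟩
  have := hU.2.1
  obtain ⟨H, hH⟩ := Group.exists_finiteIndexNormalSubgroup_notMem u hu
  have : Fintype (U ⧸ H.toSubgroup) := Fintype.ofFinite _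
  have h1 : ∀ z : U ⧸ H.toSubgroup, u • z ≠ z := by
    intro z h
    obtain ⟨g, rfl⟩ := QuotientGroup.mk_surjective z
    rw [MulAction.Quotient.smul_mk, smul_eq_mul, QuotientGroup.mk_mul, mul_eq_right] at h
    exact hH ((QuotientGroup.eq_one_iff _).1 h)
  have h2 : 1 < Fintype.card (U ⧸ H.toSubgroup) :=
    Fintype.one_lt_card_iff.2 ⟨_, _, h1 1⟩
  obtain ⟨V, _, ι, k1, k2, k3⟩ := step_aux (Z := (U ⧸ H.toSubgroup) × (U ⧸ H.toSubgroup)) hU u
    (fun z h => h1 z.1 (congrArg Prod.fst h)) (by rw [Fintype.card_prod]; nlinarith)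
  exact ⟨V, inferInstance, ι, k1, k2, fun _ => k3⟩

end Pool.Agent.H152Z.Shun
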