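import Mathlib
import Pool.Agent.H152Z.Shun.Step

set_option autoImplicit false
set_option linter.unusedSectionVars false

namespace Pool.Agent.H152Z.Shun

theorem exists_limit (G : ℕ → Type) [∀ n, Group (G n)] (ι : ∀ n, G n →* G (n + 1))
    (hι : ∀ n, Function.Injective (ι n)) : ∃ (L : Type) (_ : Group L) (j : ∀ n, G n →* L),
      (∀ n, Function.Injective (j n)) ∧ (∀ n x, j (n + 1) (ι n x) = j n x) ∧
      ∀ a b : L, ∃ n x y, a = j n x ∧ b = j n y := by
  let f : ∀ i k : ℕ, i ≤ k → (G i →* G k) := fun i k h =>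
    Nat.leRec (motive := fun m _ => G i →* G m) (MonoidHom.id _) (fun m _ g => (ι m).comp g) h
  have f0 : ∀ i x, f i i le_rfl x = x := fun i x => by simp [f]
  have f1 : ∀ i k (h : i ≤ k) x, f i (k + 1) (h.trans k.le_succ) x = ι k (f i k h x) :=
    fun i k h x => by simp only [f]; rw [Nat.leRec_succ _ _ h]; rfl
  have : DirectedSystem G (f · · ·) :=
    ⟨f0, fun k m i h1 h2 x => by
      induction k, h2 using Nat.le_induction with
      | base => exact f0 _ _
      | succ k hk ih => exact (f1 _ _ hk _).trans ((congrArg _ ih).trans (f1 _ _ _ _).symm)⟩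
  have f2 : ∀ i k h, Function.Injective (f i k h) := by
    intro i k h
    induction k, h using Nat.le_induction with
    | base => intro x y h; rwa [f0, f0] at h
    | succ k hk ih => intro x y h; rw [f1 _ _ hk, f1 _ _ hk] at h; exact ih (hι _ h)
  refine ⟨DirectLimit G f, inferInstance, fun n => MonoidHom.mk' (fun x => ⟦⟨n, x⟩⟧)
    fun x y => (DirectLimit.mul_def n x y).symm, DirectLimit.mk_injective f f2, fun n x => ?_,
    DirectLimit.exists_eq_mk₂ f⟩
  have := DirectLimit.mk_apply (f := f) n (n + 1) x n.le_succ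
  rw [f1 n n le_rfl, f0] at this
  exact this

/-- A stage of the tower, with its list of elements still to be treated. -/
structure Stage where
  G : Type
  [grp : Group G]
  good : Good G
  L : ℕ → G

attribute [instance] Stage.grp

lemma good_base : Good (Multiplicative (ZMod 3)) :=
  ⟨inferInstance, inferInstance, fun g => isOfFinOrder_of_finite g,
    fun g _ h => eq_one_of_coprime h ((by decide : ∀ g : Multiplicative (ZMod 3), g ^ 3 = 1) g)
      (Nat.Coprime.pow_left _ (by decide)), fun _ _ _ _ _ _ _ => Set.toFinite _⟩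

theorem exists_stages : ∃ (St : ℕ → Stage) (ι : ∀ n, (St n).G →* (St (n + 1)).G),
    Nontrivial (St 0).G ∧ (∀ n, Function.Injective (ι n)) ∧
    (∀ t, (St t).L t ≠ 1 → ∀ K : Subgroup (St (t + 1)).G, K.IsSubnormal → ι t ((St t).L t) ∈ K →
      ∃ a ∈ K, ∃ b ∈ K,
        (Subgroup.closure ({a, b} : Set (St (t + 1)).G) : Set (St (t + 1)).G).Infinite) ∧
    (∀ t g, ∃ k, (St t).L (Nat.pair t k) = g) ∧
    ∀ t n, n.unpair.1 ≠ t + 1 → (St (t + 1)).L n = ι t ((St t).L n) := by
  have hstep : ∀ (t : ℕ) (S : Stage), ∃ (S' : Stage) (ι : S.G →* S'.G), Function.Injective ι ∧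
      (S.L t ≠ 1 → ∀ K : Subgroup S'.G, K.IsSubnormal → ι (S.L t) ∈ K →
        ∃ a ∈ K, ∃ b ∈ K, (Subgroup.closure ({a, b} : Set S'.G) : Set S'.G).Infinite) ∧
      (∀ g, ∃ k, S'.L (Nat.pair (t + 1) k) = g) ∧
      ∀ n, n.unpair.1 ≠ t + 1 → S'.L n = ι (S.L n) := by
    intro t S
    obtain ⟨V, _, ι, h1, h2, h3⟩ := step S.G S.good (S.L t)
    have := h1.1
    obtain ⟨e, he⟩ := exists_surjective_nat V
    exact ⟨⟨V, h1, fun n => if n.unpair.1 = t + 1 then e n.unpair.2 else ι (S.L n)⟩, ι, h2, h3,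
      fun g => by simpa using he g, fun n hn => if_neg hn⟩
  choose nxt ι h1 h2 h3 h4 using hstep
  obtain ⟨e, he⟩ := exists_surjective_nat (Multiplicative (ZMod 3))
  refine ⟨fun n => Nat.rec ⟨_, good_base, fun n => e n.unpair.2⟩ nxt n, fun n => ι n _,
    inferInstanceAs (Nontrivial (Multiplicative (ZMod 3))), fun n => h1 n _, fun t => h2 t _,
    fun t g => ?_, fun t => h4 t _⟩
  cases t with
  | zero =>
    obtain ⟨k, hk⟩ := he g
    exact ⟨k, by show e _ = _; rw [Nat.unpair_pair, hk]⟩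
  | succ t => exact h3 t _ g

theorem exists_group : ∃ (L : Type) (_ : Group L), Nontrivial L ∧ IsMulTorsion L ∧ NoTors 2 L ∧
    PP L ∧ ∀ S : Subgroup L, S.IsSubnormal → ∀ u ∈ S, u ≠ 1 →
      ∃ a ∈ S, ∃ b ∈ S, (Subgroup.closure ({a, b} : Set L) : Set L).Infinite := by
  obtain ⟨St, ι, h0, h1, h2, h3, h4⟩ := exists_stages
  obtain ⟨L, _, j, j1, j2, j3⟩ := exists_limit (fun n => (St n).G) ι h1
  refine ⟨L, inferInstance, (j1 0).nontrivial, fun a => ?_,
    fun a k ha => ?_, fun q hq a b k ha hb => ?_, fun S hS u hu hu1 => ?_⟩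
  · obtain ⟨n, x, -, rfl, -⟩ := j3 a a
    exact (j n).isOfFinOrder ((St n).good.2.2.1 x)
  · obtain ⟨n, x, -, rfl, -⟩ := j3 a a
    rw [(St n).good.2.2.2.1 x k (j1 n (by rw [map_pow, ha, map_one])), map_one]
  · obtain ⟨n, x, y, rfl, rfl⟩ := j3 a b
    rw [closure_pair_map]
    exact ((St n).good.2.2.2.2 q hq x y k (j1 n (by rw [map_pow, ha, map_one]))
      (j1 n (by rw [map_pow, hb, map_one]))).image _
  obtain ⟨t, x, -, rfl, -⟩ := j3 u u
  obtain ⟨k, hk⟩ := h3 t x
  have key : ∀ s, t ≤ s → j s ((St s).L (Nat.pair t k)) = j t x := by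
    intro s hs
    induction s, hs using Nat.le_induction with
    | base => rw [hk]
    | succ s hs ih => rw [← ih, ← j2 s, h4 s _ (by rw [Nat.unpair_pair]; omega)]
  have k1 := key _ (Nat.left_le_pair t k)
  obtain ⟨a, ha, b, hb, h⟩ := h2 (Nat.pair t k) (fun h => hu1 (by rw [← k1, h, map_one]))
    _ (hS.comap (j (Nat.pair t k + 1))) (by rwa [Subgroup.mem_comap, j2, k1])
  refine ⟨_, ha, _, hb, ?_⟩
  rw [closure_pair_map (j (Nat.pair t k + 1))]
  exact h.image (j1 _).injOn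

lemma exists_part {G : Type} [Group G] (hT : IsMulTorsion G) {H : Subgroup G} {p : ℕ}
    (hp : p.Prime) {a : G} (ha : a ∈ Subgroup.normalizer (H : Set G)) (h : a ^ p ∈ H) :
    ∃ (c : G) (k : ℕ), c ^ p ^ k = 1 ∧ c ∈ Subgroup.normalizer (H : Set G) ∧ a * c⁻¹ ∈ H := by
  obtain ⟨k, m, h1, h2⟩ := Nat.exists_eq_pow_mul_and_not_dvd (hT a).orderOf_pos.ne' p hp.ne_one
  obtain ⟨v, -, hv⟩ := Nat.exists_mul_mod_eq_one_of_coprime
    ((Nat.Prime.coprime_iff_not_dvd hp).2 h1).symm hp.one_lt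
  refine ⟨a ^ (m * v), k, ?_, Subgroup.pow_mem _ ha _, ?_⟩
  · rw [← pow_mul, show m * v * p ^ k = p ^ k * m * v by ring, ← h2, pow_mul, pow_orderOf_eq_one,
      one_pow]
  · rw [← Nat.div_add_mod (m * v) p, hv, pow_succ, pow_mul, mul_inv_rev, mul_inv_cancel_left]
    exact H.inv_mem (H.pow_mem h _)

theorem shunkov {G : Type} [Group G] (hT : IsMulTorsion G) (hP : PP G) (H : Subgroup G)
    (hH : (H : Set G).Finite) (a : G) (ha : a ∈ Subgroup.normalizer (H : Set G)) (b : G)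
    (hb : b ∈ Subgroup.normalizer (H : Set G)) (p : ℕ) (hp : p.Prime) (h1 : a ^ p ∈ H)
    (h2 : ∃ c ∈ Subgroup.normalizer (H : Set G), c * a * c⁻¹ * b⁻¹ ∈ H) :
    ((Subgroup.closure (insert a (insert b (H : Set G)))) : Set G).Finite := by
  obtain ⟨c, hc, h2⟩ := h2
  have h3 : ∀ n : ℕ, (c * a * c⁻¹) ^ n * (b ^ n)⁻¹ ∈ H := by
    intro n
    induction n with
    | zero => simp
    | succ n ih =>
      have := H.mul_mem h2 ((Subgroup.mem_normalizer_iff.1 hb _).1 ih)
      convert this using 1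
      rw [pow_succ', pow_succ']
      group
  have h4 : b ^ p ∈ H := by
    have h5 := h3 p
    rw [conj_pow, H.mul_mem_cancel_left ((Subgroup.mem_normalizer_iff.1 hc _).1 h1)] at h5
    exact H.inv_mem_iff.1 h5
  obtain ⟨a', k, a1, a2, a3⟩ := exists_part hT hp ha h1
  obtain ⟨b', l, b1, b2, b3⟩ := exists_part hT hp hb h4
  have h5 := hP p hp a' b' (k + l) (by rw [pow_add, pow_mul, a1, one_pow])
    (by rw [add_comm, pow_add, pow_mul, b1, one_pow])
  have h6 := hH.mul h5
  rw [← Subgroup.coe_mul_of_right_le_normalizer_left _ _ ((Subgroup.closure_le _).2 (by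
    rintro _ (rfl | rfl) <;> assumption))] at h6
  refine h6.subset ((Subgroup.closure_le _).2 ?_)
  rintro g (rfl | rfl | hg)
  · simpa using Subgroup.mul_mem_sup a3 (Subgroup.subset_closure (k := {a', b'}) (a := a') (by simp))
  · simpa using Subgroup.mul_mem_sup b3 (Subgroup.subset_closure (k := {a', b'}) (a := b') (by simp))
  · exact Subgroup.mem_sup_left hg

end Pool.Agent.H152Z.Shun
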